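import Mathlib

set_option autoImplicit false

namespace Pool.Agent.StarFinite

open Metric Set

variable {Y : Type*} [NormedAddCommGroup Y] [NormedSpace ℝ Y]

/-- Šmulyan's lemma (one direction): at a point where the norm is Fréchet differentiable,
almost norming functionals are close to the derivative. -/
lemma smulyan {u : Y} (hd : DifferentiableAt ℝ (fun y : Y => ‖y‖) u) :
    ∀ ε > 0, ∃ δ > 0, ∀ g : Y →L[ℝ] ℝ, ‖g‖ ≤ 1 → ‖u‖ - δ ≤ g u →
      ‖g - fderiv ℝ (fun y : Y => ‖y‖) u‖ ≤ ε := by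
  intro ε hε
  set f := fderiv ℝ (fun y : Y => ‖y‖) u with hf
  have h1 := (hasFDerivAt_iff_isLittleO_nhds_zero.1 hd.hasFDerivAt)
  rw [Asymptotics.isLittleO_iff] at h1
  have h2 := h1 (half_pos hε)
  rw [Metric.eventually_nhds_iff] at h2
  obtain ⟨τ, hτ, h3⟩ := h2
  refine ⟨ε * (τ / 2) / 2, by positivity, ?_⟩
  intro g hg hgu
  refine ContinuousLinearMap.opNorm_le_bound _ hε.le ?_
  -- first the estimate on the sphere of radius τ/2
  have key : ∀ h : Y, ‖h‖ = τ / 2 → (g - f) h ≤ ε * ‖h‖ := by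
    intro h hh
    have h4 : dist h 0 < τ := by
      rw [dist_zero_right, hh]; linarith
    have h5 := h3 h4
    rw [Real.norm_eq_abs] at h5
    have h6 := (abs_le.1 h5).2
    have h7 : g (u + h) ≤ ‖u + h‖ := by
      calc g (u + h) ≤ ‖g (u + h)‖ := Real.le_norm_self _
        _ ≤ ‖g‖ * ‖u + h‖ := g.le_opNorm _
        _ ≤ 1 * ‖u + h‖ := by gcongr
        _ = ‖u + h‖ := one_mul _
    rw [map_add] at h7
    simp only [sub_apply]
    simp only [← hf] at h6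
    rw [hh] at h6 ⊢
    nlinarith
  have key2 : ∀ h : Y, (g - f) h ≤ ε * ‖h‖ := by
    intro h
    by_cases h0 : h = 0
    · simp [h0]
    have hn : 0 < ‖h‖ := norm_pos_iff.2 h0
    have hc : 0 < (τ / 2) / ‖h‖ := by positivity
    have h8 := key (((τ / 2) / ‖h‖) • h) (by
      rw [norm_smul, Real.norm_of_nonneg hc.le]; field_simp)
    rw [map_smul, norm_smul, Real.norm_of_nonneg hc.le, smul_eq_mul] at h8
    have h9 : (τ / 2) / ‖h‖ * (g - f) h ≤ (τ / 2) / ‖h‖ * (ε * ‖h‖) := by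
      calc _ ≤ _ := h8
        _ = _ := by ring
    exact le_of_mul_le_mul_left h9 hc
  intro h
  rw [Real.norm_eq_abs, abs_le]
  refine ⟨?_, key2 h⟩
  have := key2 (-h)
  rw [map_neg, norm_neg] at this
  linarith

lemma apply_le_norm {g : Y →L[ℝ] ℝ} (hg : ‖g‖ ≤ 1) (v : Y) : g v ≤ ‖v‖ := by
  calc g v ≤ ‖g v‖ := Real.le_norm_self _
    _ ≤ ‖g‖ * ‖v‖ := g.le_opNorm _
    _ ≤ 1 * ‖v‖ := by gcongr
    _ = ‖v‖ := one_mul _

lemma exists_norming (v : Y) : ∃ g : Y →L[ℝ] ℝ, ‖g‖ ≤ 1 ∧ g v = ‖v‖ := by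
  obtain ⟨g, hg, hgv⟩ := exists_dual_vector'' ℝ v
  exact ⟨g, hg, by simpa using hgv⟩

/-- Sub-ball lemma. -/
lemma subball {x c : Y} {r κ : ℝ} (hκ : 0 < κ) (hr : κ ≤ r) (hx : ‖x - c‖ ≤ r) :
    ∃ c' : Y, ‖x - c'‖ ≤ κ ∧ ‖c' - c‖ ≤ r - κ := by
  have hr0 : 0 < r := lt_of_lt_of_le hκ hr
  refine ⟨x + (κ / r) • (c - x), ?_, ?_⟩
  · have : x - (x + (κ / r) • (c - x)) = (κ / r) • (x - c) := by
      rw [← neg_sub c x, smul_neg]; abel
    rw [this, norm_smul, Real.norm_of_nonneg (by positivity)]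
    calc κ / r * ‖x - c‖ ≤ κ / r * r := by gcongr
      _ = κ := by field_simp
  · have : (x + (κ / r) • (c - x)) - c = (1 - κ / r) • (x - c) := by
      rw [← neg_sub c x, smul_neg, sub_smul, one_smul]; abel
    have h1 : 0 ≤ 1 - κ / r := by
      rw [sub_nonneg, div_le_one hr0]; exact hr
    rw [this, norm_smul, Real.norm_of_nonneg h1]
    calc (1 - κ / r) * ‖x - c‖ ≤ (1 - κ / r) * r := by gcongr
      _ = r - κ := by field_simp

/-- The three-ball lemma. -/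
lemma three_ball {c₁ z c' c₀ x x' ζ ξ : Y} {r₁ κ s η : ℝ} (f : Y →L[ℝ] ℝ)
    (hr₁ : 0 < r₁) (hκ : 0 < κ) (hs : 0 < s) (hsr : s ≤ r₁ / 2) (hsκ : s ≤ κ)
    (hη : η ≤ κ / 4) {u w : Y} (hu : u = (1 / r₁) • (z - c₁))
    (hw : w = (1 / κ) • (c' - x)) (hwn : ‖w‖ ≤ 1) (hzc : ‖z - c₁‖ = r₁)
    (hζ : ζ = z + s • (w - u)) (hξ : ξ = x + s • (w - u))
    (hx'ζ : ‖x' - ζ‖ ≤ η) (hx'ξ : ‖x' - ξ‖ ≤ η)
    (hx'c : ‖x' - c₀‖ ≤ κ)
    (hd₁ : κ + r₁ < ‖c₀ - c₁‖) (hd₂ : 2 * κ < ‖c' - c₀‖)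
    (hf : ∀ g : Y →L[ℝ] ℝ, ‖g‖ ≤ 1 → 1 - (η / s + 2 * η / r₁) ≤ g u → ‖g - f‖ ≤ 1 / 4) : False := by
  have hη0 : 0 ≤ η := le_trans (norm_nonneg _) hx'ζ
  have hun : ‖u‖ = 1 := by
    rw [hu, norm_smul, Real.norm_of_nonneg (by positivity), hzc]; field_simp
  have hru : z - c₁ = r₁ • u := by
    rw [hu, smul_smul]; field_simp; simp
  have hκw : c' - x = κ • w := by
    rw [hw, smul_smul]; field_simp; simp
  -- first functional
  obtain ⟨g, hg, hgv⟩ := exists_norming (c₀ - c₁)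
  obtain ⟨g', hg', hgv'⟩ := exists_norming (c' - c₀)
  have e1 : ζ - c₁ = (r₁ - s) • u + s • w := by
    have : ζ - c₁ = (z - c₁) + s • (w - u) := by rw [hζ]; abel
    rw [this, hru, sub_smul, smul_sub]; abel
  have e2 : c' - ξ = (κ - s) • w + s • u := by
    have : c' - ξ = (c' - x) - s • (w - u) := by rw [hξ]; abel
    rw [this, hκw, sub_smul, smul_sub]; abel
  have n1 : ‖ζ - c₁‖ ≤ r₁ := by
    rw [e1]
    calc ‖(r₁ - s) • u + s • w‖ ≤ ‖(r₁ - s) • u‖ + ‖s • w‖ := norm_add_le _ _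
      _ = (r₁ - s) * 1 + s * ‖w‖ := by
        rw [norm_smul, norm_smul, hun, Real.norm_of_nonneg (by linarith : (0:ℝ) ≤ r₁ - s),
          Real.norm_of_nonneg hs.le]
      _ ≤ (r₁ - s) * 1 + s * 1 := by gcongr
      _ = r₁ := by ring
  have n2 : ‖c' - ξ‖ ≤ κ := by
    rw [e2]
    calc ‖(κ - s) • w + s • u‖ ≤ ‖(κ - s) • w‖ + ‖s • u‖ := norm_add_le _ _
      _ = (κ - s) * ‖w‖ + s * 1 := by
        rw [norm_smul, norm_smul, hun, Real.norm_of_nonneg (by linarith : (0:ℝ) ≤ κ - s),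
          Real.norm_of_nonneg hs.le]
      _ ≤ (κ - s) * 1 + s * 1 := by
        have : 0 ≤ κ - s := by linarith
        gcongr
      _ = κ := by ring
  -- values of g
  have gw : g w ≤ 1 := (apply_le_norm hg w).trans hwn
  have gw' : g' w ≤ 1 := (apply_le_norm hg' w).trans hwn
  have a1 : g (x' - ζ) ≤ η := (apply_le_norm hg _).trans hx'ζ
  have a2 : g (ζ - c₁) ≤ r₁ := (apply_le_norm hg _).trans n1
  have a3 : g (c₀ - x') ≤ κ := (apply_le_norm hg _).trans (by rw [norm_sub_rev]; exact hx'c)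
  have a4 : g (c₀ - c₁) = g (c₀ - x') + g (x' - ζ) + g (ζ - c₁) := by
    simp only [map_sub]; ring
  have a5 : g (ζ - c₁) = (r₁ - s) * g u + s * g w := by
    rw [e1]; simp
  have b1 : g' (ξ - x') ≤ η := (apply_le_norm hg' _).trans (by rw [norm_sub_rev]; exact hx'ξ)
  have b2 : g' (c' - ξ) ≤ κ := (apply_le_norm hg' _).trans n2
  have b3 : g' (x' - c₀) ≤ κ := (apply_le_norm hg' _).trans hx'c
  have b4 : g' (c' - c₀) = g' (c' - ξ) + g' (ξ - x') + g' (x' - c₀) := by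
    simp only [map_sub]; ring
  have b5 : g' (c' - ξ) = (κ - s) * g' w + s * g' u := by
    rw [e2]; simp
  have c1 : κ - η ≤ g (c₀ - x') := by linarith
  have c2 : κ - η ≤ g' (x' - c₀) := by linarith
  have gu : 1 - (η / s + 2 * η / r₁) ≤ g u := by
    have h1 : r₁ - s - η ≤ (r₁ - s) * g u := by
      have : s * g w ≤ s * 1 := by gcongr
      linarith
    have h2 : 0 < r₁ - s := by linarith
    have h3 : 1 - 2 * η / r₁ ≤ g u := by
      by_contra hcon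
      push Not at hcon
      have h4 : (r₁ - s) * g u < (r₁ - s) * (1 - 2 * η / r₁) := by gcongr
      have h5 : (r₁ - s) * (2 * η / r₁) ≥ η := by
        have : (r₁ - s) * (2 * η / r₁) = (2 * (r₁ - s) / r₁) * η := by ring
        rw [this]
        have h6 : 1 ≤ 2 * (r₁ - s) / r₁ := by
          rw [le_div_iff₀ hr₁]; linarith
        nlinarith
      nlinarith
    have h7 : 0 ≤ η / s := by positivity
    linarith
  have gu' : 1 - (η / s + 2 * η / r₁) ≤ g' u := by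
    have hks : 0 ≤ κ - s := by linarith
    have h1 : s - η ≤ s * g' u := by
      have : (κ - s) * g' w ≤ (κ - s) * 1 := by gcongr
      linarith
    have h3 : 1 - η / s ≤ g' u := by
      have h4 : s * (1 - η / s) ≤ s * g' u := by
        calc s * (1 - η / s) = s - η := by field_simp
          _ ≤ _ := h1
      exact le_of_mul_le_mul_left h4 hs
    have h7 : 0 ≤ 2 * η / r₁ := by positivity
    linarith
  have d1 := hf g hg gu
  have d2 := hf g' hg' gu'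
  have f1 : g (c₀ - x') - f (c₀ - x') ≤ 1 / 4 * κ := by
    calc g (c₀ - x') - f (c₀ - x') = (g - f) (c₀ - x') := by simp
      _ ≤ ‖(g - f) (c₀ - x')‖ := Real.le_norm_self _
      _ ≤ ‖g - f‖ * ‖c₀ - x'‖ := (g - f).le_opNorm _
      _ ≤ 1 / 4 * κ := by
        have : ‖c₀ - x'‖ ≤ κ := by rw [norm_sub_rev]; exact hx'c
        gcongr
  have f2 : g' (x' - c₀) - f (x' - c₀) ≤ 1 / 4 * κ := by
    calc g' (x' - c₀) - f (x' - c₀) = (g' - f) (x' - c₀) := by simp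
      _ ≤ ‖(g' - f) (x' - c₀)‖ := Real.le_norm_self _
      _ ≤ ‖g' - f‖ * ‖x' - c₀‖ := (g' - f).le_opNorm _
      _ ≤ 1 / 4 * κ := by gcongr
  have f3 : f (c₀ - x') = - f (x' - c₀) := by rw [← map_neg]; congr 1; abel
  linarith

end Pool.Agent.StarFinite
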