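import Mathlib
import Pool.Agent.StarFinite.Basic

set_option autoImplicit false
set_option linter.unusedSectionVars false
set_option linter.style.haveILetI false

namespace Pool.Agent.StarFinite

open Metric Set

/-- A star-finite family of closed balls `B i = closedBall (c i) (r i)` with dense union and with
tiny balls near uncovered points. -/
structure StarFam (Y : Type*) [NormedAddCommGroup Y] (ι : Type*) where
  c : ι → Y
  r : ι → ℝ
  rpos : ∀ i, 0 < r i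
  star : ∀ i, {j | ‖c i - c j‖ ≤ r i + r j}.Finite
  dense : ∀ x : Y, ∀ ε > 0, ∃ i, ∃ y, ‖y - x‖ < ε ∧ ‖y - c i‖ ≤ r i
  tiny : ∀ y, (∀ i, r i < ‖y - c i‖) →
    ∃ δ > 0, ∀ i, ‖y - c i‖ - r i < δ → r i ≤ ‖y - c i‖ - r i

variable {Y : Type*} [NormedAddCommGroup Y] [NormedSpace ℝ Y] {ι : Type*}

namespace StarFam

variable (F : StarFam Y ι)

/-- the singular points -/
def Sing : Set Y := {x | ∀ ε > 0, {i | ‖x - F.c i‖ ≤ F.r i + ε}.Infinite}

lemma meet {x : Y} {i j : ι} (hi : ‖x - F.c i‖ ≤ F.r i) (hj : ‖x - F.c j‖ ≤ F.r j) :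
    ‖F.c i - F.c j‖ ≤ F.r i + F.r j := by
  calc ‖F.c i - F.c j‖ = ‖(x - F.c j) - (x - F.c i)‖ := by congr 1; abel
    _ ≤ ‖x - F.c j‖ + ‖x - F.c i‖ := norm_sub_le _ _
    _ ≤ _ := by linarith

lemma finite_at (x : Y) : {i | ‖x - F.c i‖ ≤ F.r i}.Finite := by
  by_cases h : ∃ i, ‖x - F.c i‖ ≤ F.r i
  · obtain ⟨i, hi⟩ := h
    exact (F.star i).subset (fun j hj => F.meet hi hj)
  · push Not at h
    convert Set.finite_empty
    ext i
    simp only [mem_ofPred_eq, mem_empty_iff_false, iff_false, not_le]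
    exact h i

/-- a finite set of indices of balls not containing `x` stays at a positive distance of `x`. -/
lemma gap {x : Y} {T : Set ι} (hT : T.Finite) (hx : ∀ i ∈ T, F.r i < ‖x - F.c i‖) :
    ∃ δ > 0, ∀ i ∈ T, F.r i + δ < ‖x - F.c i‖ := by
  induction T, hT using Set.Finite.induction_on with
  | empty => exact ⟨1, one_pos, by simp⟩
  | @insert a s ha hs ih =>
    obtain ⟨δ, hδ, h⟩ := ih (fun i hi => hx i (mem_insert_of_mem _ hi))
    have h1 := hx a (mem_insert _ _)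
    refine ⟨min δ ((‖x - F.c a‖ - F.r a) / 2), lt_min hδ (by linarith), ?_⟩
    intro i hi
    rcases mem_insert_iff.1 hi with rfl | hi
    · have := min_le_right δ ((‖x - F.c i‖ - F.r i) / 2)
      linarith
    · have := min_le_left δ ((‖x - F.c a‖ - F.r a) / 2)
      have := h i hi
      linarith

lemma not_sing {x : Y} (hx : x ∉ F.Sing) :
    ∃ ε > 0, {i | ‖x - F.c i‖ ≤ F.r i + ε}.Finite := by
  unfold Sing at hx
  simp only [mem_ofPred_eq, not_forall, Set.not_infinite] at hx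
  obtain ⟨ε, hε, h⟩ := hx
  exact ⟨ε, hε, h⟩

lemma sing_of_uncovered {x : Y} (hx : ∀ i, F.r i < ‖x - F.c i‖) : x ∈ F.Sing := by
  by_contra hcon
  obtain ⟨ε, hε, hfin⟩ := F.not_sing hcon
  obtain ⟨δ, hδ, h⟩ := F.gap hfin (fun i _ => hx i)
  obtain ⟨i, y, hy, hyi⟩ := F.dense x (min ε δ) (lt_min hε hδ)
  have h1 : ‖x - F.c i‖ ≤ F.r i + ‖y - x‖ := by
    calc ‖x - F.c i‖ = ‖(y - F.c i) - (y - x)‖ := by congr 1; abel
      _ ≤ ‖y - F.c i‖ + ‖y - x‖ := norm_sub_le _ _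
      _ ≤ _ := by linarith
  have h2 := min_le_left ε δ
  have h3 := min_le_right ε δ
  have h4 := h i (by simp only [mem_ofPred_eq]; linarith)
  linarith

lemma isClosed_sing : IsClosed F.Sing := by
  rw [← isOpen_compl_iff, Metric.isOpen_iff]
  intro x hx
  obtain ⟨ε, hε, hfin⟩ := F.not_sing hx
  refine ⟨ε / 2, half_pos hε, ?_⟩
  intro y hy hyS
  rw [mem_ball, dist_eq_norm] at hy
  have := hyS (ε / 2) (half_pos hε)
  apply this
  refine hfin.subset ?_
  intro i hi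
  simp only [mem_ofPred_eq] at hi ⊢
  calc ‖x - F.c i‖ = ‖(y - F.c i) - (y - x)‖ := by congr 1; abel
    _ ≤ ‖y - F.c i‖ + ‖y - x‖ := norm_sub_le _ _
    _ ≤ _ := by linarith

lemma sing_bdry {x : Y} (hx : x ∈ F.Sing) {i : ι} (hi : ‖x - F.c i‖ ≤ F.r i) :
    ‖x - F.c i‖ = F.r i := by
  by_contra hne
  have hlt : ‖x - F.c i‖ < F.r i := lt_of_le_of_ne hi hne
  refine hx (F.r i - ‖x - F.c i‖) (by linarith) ((F.star i).subset ?_)
  intro j hj
  simp only [mem_ofPred_eq] at hj ⊢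
  calc ‖F.c i - F.c j‖ = ‖(x - F.c j) - (x - F.c i)‖ := by congr 1; abel
    _ ≤ ‖x - F.c j‖ + ‖x - F.c i‖ := norm_sub_le _ _
    _ ≤ _ := by linarith

/-- near a point which is nonsingular, everything is covered, by balls containing the point. -/
lemma local_at {x : Y} (hx : x ∉ F.Sing) :
    ∃ δ > 0, ∀ y, ‖y - x‖ < δ → (∃ i, ‖y - F.c i‖ ≤ F.r i) ∧
      ∀ j, ‖y - F.c j‖ ≤ F.r j → ‖x - F.c j‖ ≤ F.r j := by
  obtain ⟨ε, hε, hfin⟩ := F.not_sing hx
  obtain ⟨δ, hδ, hgap⟩ := F.gap (T := {i | ‖x - F.c i‖ ≤ F.r i + ε} ∩ {i | F.r i < ‖x - F.c i‖})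
    (x := x) (hfin.subset inter_subset_left) (fun i hi => hi.2)
  obtain ⟨τ, hτ, hball⟩ := Metric.isOpen_iff.1 (isOpen_compl_iff.2 F.isClosed_sing) x hx
  refine ⟨min τ (min ε δ), lt_min hτ (lt_min hε hδ), ?_⟩
  intro y hy
  have m1 := min_le_left τ (min ε δ)
  have m2 := min_le_right τ (min ε δ)
  have m3 := min_le_left ε δ
  have m4 := min_le_right ε δ
  refine ⟨?_, ?_⟩
  · by_contra hcon
    push Not at hcon
    have := F.sing_of_uncovered hcon
    exact hball (by rw [mem_ball, dist_eq_norm]; linarith) this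
  · intro j hj
    by_contra hcon
    push Not at hcon
    have h1 : ‖x - F.c j‖ ≤ F.r j + ‖y - x‖ := by
      calc ‖x - F.c j‖ = ‖(y - F.c j) - (y - x)‖ := by congr 1; abel
        _ ≤ ‖y - F.c j‖ + ‖y - x‖ := norm_sub_le _ _
        _ ≤ _ := by linarith
    have := hgap j ⟨by simp only [mem_ofPred_eq]; linarith, hcon⟩
    linarith

end StarFam

/-- In an infinite-dimensional space finitely many functionals have a common unit zero. -/
lemma exists_unit_ker (hinf : ¬ FiniteDimensional ℝ Y) {κ : Type*} (J : Set κ) (hJ : J.Finite)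
    (f : κ → (Y →L[ℝ] ℝ)) : ∃ u : Y, ‖u‖ = 1 ∧ ∀ j ∈ J, f j u = 0 := by
  classical
  haveI := hJ.fintype
  let Φ : Y →ₗ[ℝ] (J → ℝ) := LinearMap.pi (fun j => (f j.1 : Y →ₗ[ℝ] ℝ))
  have hΦ : ¬ Function.Injective Φ := fun h => hinf (Module.Finite.of_injective Φ h)
  rw [← LinearMap.ker_eq_bot, ← ne_eq, Submodule.ne_bot_iff] at hΦ
  obtain ⟨v, hv, hv0⟩ := hΦ
  have hn : 0 < ‖v‖ := norm_pos_iff.2 hv0
  refine ⟨‖v‖⁻¹ • v, ?_, ?_⟩
  · rw [norm_smul, norm_inv, norm_norm]; field_simp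
  · intro j hj
    have : Φ v = 0 := hv
    have h2 := congrFun this ⟨j, hj⟩
    have h3 : f j v = 0 := h2
    rw [map_smul, h3, smul_zero]

namespace StarFam

variable (F : StarFam Y ι)

/-- Lemma G: if no ball containing `x₀` has singular points within `ρ` of `x₀`, then some ball
containing `x₀` has radius at least `ρ / 2`. -/
lemma large_ball (hinf : ¬ FiniteDimensional ℝ Y) {x₀ : Y} {ρ : ℝ} (hρ : 0 < ρ)
    (hcov : ∃ i, ‖x₀ - F.c i‖ ≤ F.r i)
    (hns : ∀ i, ‖x₀ - F.c i‖ ≤ F.r i → ∀ s ∈ F.Sing, ‖s - F.c i‖ ≤ F.r i → ρ < ‖s - x₀‖) :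
    ∃ i, ‖x₀ - F.c i‖ ≤ F.r i ∧ ρ / 2 ≤ F.r i := by
  classical
  set I : Set ι := {i | ‖x₀ - F.c i‖ ≤ F.r i} with hI
  have hIfin : I.Finite := F.finite_at x₀
  set J : Set ι := {j | F.r j < ‖x₀ - F.c j‖ ∧ ∃ i ∈ I, ‖F.c i - F.c j‖ ≤ F.r i + F.r j} with hJ
  have hJfin : J.Finite := by
    have : J ⊆ ⋃ i ∈ I, {j | ‖F.c i - F.c j‖ ≤ F.r i + F.r j} := by
      rintro j ⟨_, i, hi, hij⟩
      exact mem_biUnion hi hij
    exact (hIfin.biUnion (fun i _ => F.star i)).subset this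
  choose f hf1 hf2 using fun j => exists_norming (F.c j - x₀)
  obtain ⟨u, hu1, hu2⟩ := exists_unit_ker hinf J hJfin f
  have hJavoid : ∀ j ∈ J, ∀ t : ℝ, F.r j < ‖(x₀ + t • u) - F.c j‖ := by
    intro j hj t
    have h1 : f j (F.c j - (x₀ + t • u)) = ‖F.c j - x₀‖ := by
      have : F.c j - (x₀ + t • u) = (F.c j - x₀) - t • u := by abel
      rw [this, map_sub, map_smul, hu2 j hj, smul_zero, sub_zero, hf2]
    have h2 := apply_le_norm (hf1 j) (F.c j - (x₀ + t • u))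
    rw [h1] at h2
    have h3 := hj.1
    rw [norm_sub_rev] at h3
    rw [norm_sub_rev]
    linarith
  -- the compact set of parameters
  set U : Set Y := ⋃ i ∈ I, closedBall (F.c i) (F.r i) with hU
  have hUclosed : IsClosed U := hIfin.isClosed_biUnion (fun i _ => isClosed_closedBall)
  set K : Set ℝ := Icc 0 ρ ∩ {t | x₀ + t • u ∈ U} with hK
  have hKcomp : IsCompact K := by
    refine isCompact_Icc.inter_right (hUclosed.preimage ?_)
    fun_prop
  have hKne : K.Nonempty := by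
    refine ⟨0, ⟨le_rfl, hρ.le⟩, ?_⟩
    obtain ⟨i, hi⟩ := hcov
    simp only [mem_ofPred_eq, zero_smul, add_zero]
    exact mem_biUnion (show i ∈ I from hi) (by rw [mem_closedBall, dist_eq_norm]; exact hi)
  obtain ⟨t, ⟨⟨ht0, htρ⟩, htU⟩, htmax⟩ := hKcomp.exists_isGreatest hKne
  obtain ⟨i, hi, hti⟩ := mem_iUnion₂.1 htU
  rw [mem_closedBall, dist_eq_norm] at hti
  rcases eq_or_lt_of_le htρ with h | h
  · refine ⟨i, hi, ?_⟩
    have h1 : ‖t • u‖ = ρ := by
      rw [norm_smul, hu1, mul_one, Real.norm_of_nonneg ht0, h]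
    have h2 : ‖t • u‖ ≤ ‖x₀ + t • u - F.c i‖ + ‖x₀ - F.c i‖ := by
      calc ‖t • u‖ = ‖(x₀ + t • u - F.c i) - (x₀ - F.c i)‖ := by congr 1; abel
        _ ≤ _ := norm_sub_le _ _
    have h3 : ‖x₀ - F.c i‖ ≤ F.r i := hi
    linarith
  · exfalso
    set z := x₀ + t • u with hz
    have hzns : z ∉ F.Sing := by
      intro hzS
      have h1 := hns i hi z hzS hti
      have h2 : ‖z - x₀‖ = t := by
        rw [hz, add_sub_cancel_left, norm_smul, hu1, mul_one, Real.norm_of_nonneg ht0]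
      linarith
    obtain ⟨δ, hδ, hloc⟩ := F.local_at hzns
    set t' := t + min (δ / 2) (ρ - t) with ht'
    have m1 := min_le_left (δ / 2) (ρ - t)
    have m2 := min_le_right (δ / 2) (ρ - t)
    have m3 : 0 < min (δ / 2) (ρ - t) := lt_min (half_pos hδ) (by linarith)
    have hy : ‖(x₀ + t' • u) - z‖ < δ := by
      have : (x₀ + t' • u) - z = (t' - t) • u := by
        rw [hz, sub_smul]; abel
      rw [this, norm_smul, hu1, mul_one, Real.norm_of_nonneg (by linarith)]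
      linarith
    obtain ⟨⟨j, hj⟩, hall⟩ := hloc _ hy
    have hzj := hall j hj
    have hnU : x₀ + t' • u ∉ U := by
      intro hmem
      have : t' ≤ t := htmax ⟨⟨by linarith, by linarith⟩, hmem⟩
      linarith
    have hjI : j ∉ I := by
      intro hjI
      exact hnU (mem_biUnion hjI (by rw [mem_closedBall, dist_eq_norm]; exact hj))
    have hjJ : j ∈ J := by
      refine ⟨?_, i, hi, F.meet hti hzj⟩
      simpa [hI] using hjI
    have := hJavoid j hjJ t
    linarith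

/-- There are singular points. -/
lemma sing_nonempty (hinf : ¬ FiniteDimensional ℝ Y) : F.Sing.Nonempty := by
  by_contra hcon
  rw [Set.not_nonempty_iff_eq_empty] at hcon
  have hcov : ∃ i, ‖(0 : Y) - F.c i‖ ≤ F.r i := by
    by_contra h
    push Not at h
    have := F.sing_of_uncovered h
    rw [hcon] at this
    exact this
  have hfin := F.finite_at (0 : Y)
  obtain ⟨M, hM⟩ := (hfin.image F.r).bddAbove
  have hM' : ∀ i, ‖(0 : Y) - F.c i‖ ≤ F.r i → F.r i ≤ M := fun i hi =>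
    hM ⟨i, hi, rfl⟩
  obtain ⟨i₀, hi₀⟩ := hcov
  have hMpos : 0 < M := lt_of_lt_of_le (F.rpos i₀) (hM' i₀ hi₀)
  obtain ⟨i, hi, hir⟩ := F.large_ball hinf (x₀ := 0) (ρ := 4 * M) (by linarith) ⟨i₀, hi₀⟩
    (by intro i _ s hs; rw [hcon] at hs; exact absurd hs (by simp))
  have := hM' i hi
  linarith

/-- Covered singular points are dense among the singular points. -/
lemma sing_cov_dense (hinf : ¬ FiniteDimensional ℝ Y) {p : Y} (hp : p ∈ F.Sing) {ρ : ℝ}
    (hρ : 0 < ρ) : ∃ q ∈ F.Sing, ‖q - p‖ < ρ ∧ ∃ i, ‖q - F.c i‖ ≤ F.r i := by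
  by_contra hcon
  push Not at hcon
  have hpu : ∀ i, F.r i < ‖p - F.c i‖ := hcon p hp (by simpa using hρ)
  obtain ⟨δ, hδ, htiny⟩ := F.tiny p hpu
  obtain ⟨i₀, x₀, hx₀, hi₀⟩ := F.dense p (min δ (ρ / 8)) (lt_min hδ (by linarith))
  have m1 := min_le_left δ (ρ / 8)
  have m2 := min_le_right δ (ρ / 8)
  obtain ⟨i, hi, hir⟩ := F.large_ball hinf (x₀ := x₀) (ρ := ρ / 2) (by linarith) ⟨i₀, hi₀⟩ (by
    intro i _ s hs hsi
    by_contra hle
    push Not at hle
    have h1 : ‖s - p‖ < ρ := by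
      calc ‖s - p‖ = ‖(s - x₀) + (x₀ - p)‖ := by congr 1; abel
        _ ≤ ‖s - x₀‖ + ‖x₀ - p‖ := norm_add_le _ _
        _ < ρ := by linarith
    have := hcon s hs h1 i
    linarith)
  have h1 : ‖p - F.c i‖ ≤ F.r i + ‖x₀ - p‖ := by
    calc ‖p - F.c i‖ = ‖(x₀ - F.c i) - (x₀ - p)‖ := by congr 1; abel
      _ ≤ ‖x₀ - F.c i‖ + ‖x₀ - p‖ := norm_sub_le _ _
      _ ≤ _ := by linarith
  have := htiny i (by linarith)
  linarith

/-- Some neighbourhood of a singular point has all its singular points in one ball. -/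
lemma exists_localized (hinf : ¬ FiniteDimensional ℝ Y) [CompleteSpace Y] [Countable ι] :
    ∃ p ∈ F.Sing, ∃ ρ > 0, ∃ i, ∀ s ∈ F.Sing, ‖s - p‖ < ρ → ‖s - F.c i‖ ≤ F.r i := by
  by_contra hcon
  push Not at hcon
  haveI : CompleteSpace F.Sing := F.isClosed_sing.completeSpace_coe
  haveI : Nonempty F.Sing := (F.sing_nonempty hinf).to_subtype
  -- open dense sets
  let G : ℕ ⊕ ι → Set F.Sing := fun k => match k with
    | Sum.inl n => {y | ∃ q ∈ F.Sing, ∃ i, ‖q - F.c i‖ ≤ F.r i ∧ ‖(y : Y) - q‖ < F.r i ∧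
        ‖(y : Y) - q‖ < 1 / ((n : ℝ) + 1)}
    | Sum.inr i => {y | F.r i < ‖(y : Y) - F.c i‖}
  have hGo : ∀ k, IsOpen (G k) := by
    intro k
    match k with
    | Sum.inl n =>
      have : G (Sum.inl n) = ⋃ q ∈ F.Sing, ⋃ i ∈ {i | ‖q - F.c i‖ ≤ F.r i},
          ({y : F.Sing | ‖(y : Y) - q‖ < F.r i} ∩ {y : F.Sing | ‖(y : Y) - q‖ < 1 / ((n : ℝ) + 1)}) := by
        ext y
        simp only [G, mem_ofPred_eq, mem_iUnion, mem_inter_iff, exists_prop]
      rw [this]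
      refine isOpen_biUnion (fun q _ => isOpen_biUnion (fun i _ => IsOpen.inter ?_ ?_))
      · exact isOpen_lt (by fun_prop) continuous_const
      · exact isOpen_lt (by fun_prop) continuous_const
    | Sum.inr i => exact isOpen_lt continuous_const (by fun_prop)
  have hGd : ∀ k, Dense (G k) := by
    intro k
    rw [Metric.dense_iff]
    intro x ε hε
    match k with
    | Sum.inl n =>
      obtain ⟨q, hq, hqx, i, hqi⟩ := F.sing_cov_dense hinf x.2 hε
      refine ⟨⟨q, hq⟩, ?_, ?_⟩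
      · rw [mem_ball, Subtype.dist_eq, dist_eq_norm]; exact hqx
      · refine ⟨q, hq, i, hqi, ?_, ?_⟩
        · simpa using F.rpos i
        · simp only [sub_self, norm_zero]; positivity
    | Sum.inr i =>
      obtain ⟨s, hs, hsx, hsi⟩ := hcon x.1 x.2 ε hε i
      refine ⟨⟨s, hs⟩, ?_, hsi⟩
      rw [mem_ball, Subtype.dist_eq, dist_eq_norm]; exact hsx
  have hdense := dense_iInter_of_isOpen hGo hGd
  obtain ⟨y, hy⟩ := hdense.nonempty
  rw [mem_iInter] at hy
  have hyu : ∀ i, F.r i < ‖(y : Y) - F.c i‖ := fun i => hy (Sum.inr i)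
  obtain ⟨δ, hδ, htiny⟩ := F.tiny y hyu
  obtain ⟨n, hn⟩ := exists_nat_one_div_lt hδ
  obtain ⟨q, _, i, hqi, h1, h2⟩ := hy (Sum.inl n)
  have h3 : ‖(y : Y) - F.c i‖ ≤ F.r i + ‖(y : Y) - q‖ := by
    calc ‖(y : Y) - F.c i‖ = ‖((y : Y) - q) + (q - F.c i)‖ := by congr 1; abel
      _ ≤ ‖(y : Y) - q‖ + ‖q - F.c i‖ := norm_add_le _ _
      _ ≤ _ := by linarith
  have := htiny i (by linarith)
  linarith

end StarFam

end Pool.Agent.StarFinite
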