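import Mathlib
import Pool.Agent.StarFinite.Basic
import Pool.Agent.StarFinite.Family

set_option autoImplicit false
set_option linter.unusedSectionVars false
set_option linter.style.haveILetI false

namespace Pool.Agent.StarFinite

open Metric Set

variable {Y : Type*} [NormedAddCommGroup Y] [NormedSpace ℝ Y] {ι : Type*}

lemma near_point {z c : Y} {r ε : ℝ} (hr : 0 ≤ r) (hε : 0 ≤ ε) (h : ‖z - c‖ ≤ r + ε) :
    ∃ y, ‖y - c‖ ≤ r ∧ ‖y - z‖ ≤ ε := by
  have h1 : ¬ Disjoint (closedBall c r) (closedBall z ε) := by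
    rw [disjoint_closedBall_closedBall_iff hr hε, not_lt, dist_eq_norm, norm_sub_rev]
    exact h
  rw [Set.not_disjoint_iff] at h1
  obtain ⟨y, hy1, hy2⟩ := h1
  rw [mem_closedBall, dist_eq_norm] at hy1 hy2
  exact ⟨y, hy1, hy2⟩

lemma comb_le {p q : Y} {α β : ℝ} (hα : 0 ≤ α) (hβ : 0 ≤ β) (hp : ‖p‖ ≤ 1) (hq : ‖q‖ ≤ 1) :
    ‖α • p + β • q‖ ≤ α + β := by
  calc ‖α • p + β • q‖ ≤ ‖α • p‖ + ‖β • q‖ := norm_add_le _ _
    _ = α * ‖p‖ + β * ‖q‖ := by
      rw [norm_smul, norm_smul, Real.norm_of_nonneg hα, Real.norm_of_nonneg hβ]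
    _ ≤ α * 1 + β * 1 := by gcongr
    _ = α + β := by ring

/-- No family as in `StarFam` exists in an infinite-dimensional Fréchet smooth Banach space. -/
theorem StarFam.elim (F : StarFam Y ι) (hinf : ¬ FiniteDimensional ℝ Y) [CompleteSpace Y]
    [Countable ι] (hsm : ∀ x : Y, x ≠ 0 → DifferentiableAt ℝ (fun y : Y => ‖y‖) x) : False := by
  classical
  obtain ⟨z, hzS, ρ₀, hρ₀, i₀, hloc⟩ := F.exists_localized hinf
  have hz0 : ‖z - F.c i₀‖ ≤ F.r i₀ := hloc z hzS (by simpa using hρ₀)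
  have hz1 : ‖z - F.c i₀‖ = F.r i₀ := F.sing_bdry hzS hz0
  set c₁ := F.c i₀ with hc₁
  set r₁ := F.r i₀ with hr₁
  have hr₁pos : 0 < r₁ := F.rpos i₀
  set I : Set ι := {i | ‖z - F.c i‖ ≤ F.r i} with hI
  have hIfin : I.Finite := F.finite_at z
  have hi₀I : i₀ ∈ I := hz0
  set A : Set Y := ⋃ i ∈ I, closedBall (F.c i) (F.r i) with hA
  have hAclosed : IsClosed A := hIfin.isClosed_biUnion (fun i _ => isClosed_closedBall)
  have memA : ∀ {y : Y} {i : ι}, i ∈ I → ‖y - F.c i‖ ≤ F.r i → y ∈ A := by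
    intro y i hi hy
    exact mem_biUnion hi (by rw [mem_closedBall, dist_eq_norm]; exact hy)
  set J : Set ι := {j | F.r j < ‖z - F.c j‖ ∧ ∃ i ∈ I, ‖F.c i - F.c j‖ ≤ F.r i + F.r j} with hJ
  have hJfin : J.Finite := by
    have : J ⊆ ⋃ i ∈ I, {j | ‖F.c i - F.c j‖ ≤ F.r i + F.r j} := by
      rintro j ⟨_, i, hi, hij⟩
      exact mem_biUnion hi hij
    exact (hIfin.biUnion (fun i _ => F.star i)).subset this
  obtain ⟨δ, hδ, hgap⟩ := F.gap (x := z) hJfin (fun j hj => hj.1)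
  set κ := min ρ₀ δ / 8 with hκdef
  have hκ : 0 < κ := by
    have : 0 < min ρ₀ δ := lt_min hρ₀ hδ
    positivity
  have hκρ : 8 * κ ≤ ρ₀ := by
    have := min_le_left ρ₀ δ
    rw [hκdef]; linarith
  have hκδ : 8 * κ ≤ δ := by
    have := min_le_right ρ₀ δ
    rw [hκdef]; linarith
  -- (G')
  have hG : ∀ x : Y, ‖x - z‖ ≤ κ → x ∉ A → ∃ j, ‖x - F.c j‖ ≤ F.r j ∧ κ ≤ F.r j ∧
      ∀ i ∈ I, F.r i + F.r j < ‖F.c i - F.c j‖ := by
    intro x hxz hxA
    have hxS : x ∉ F.Sing := by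
      intro hxS
      exact hxA (memA hi₀I (hloc x hxS (by linarith)))
    have hcov : ∃ j, ‖x - F.c j‖ ≤ F.r j := by
      by_contra hcon
      push Not at hcon
      exact hxS (F.sing_of_uncovered hcon)
    have hdis : ∀ j, ‖x - F.c j‖ ≤ F.r j → ∀ i ∈ I, F.r i + F.r j < ‖F.c i - F.c j‖ := by
      intro j hj i hi
      by_contra hcon
      push Not at hcon
      have hjI : j ∉ I := fun h => hxA (memA h hj)
      have hjlt : F.r j < ‖z - F.c j‖ := by simpa [hI] using hjI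
      have h1 := hgap j ⟨hjlt, i, hi, hcon⟩
      have h2 : ‖z - F.c j‖ ≤ F.r j + ‖x - z‖ := by
        calc ‖z - F.c j‖ = ‖(x - F.c j) - (x - z)‖ := by congr 1; abel
          _ ≤ ‖x - F.c j‖ + ‖x - z‖ := norm_sub_le _ _
          _ ≤ _ := by linarith
      linarith
    obtain ⟨j, hj, hjr⟩ := F.large_ball hinf (x₀ := x) (ρ := 2 * κ) (by linarith) hcov (by
      intro j hj s hs hsj
      by_contra hcon
      push Not at hcon
      have h1 : ‖s - z‖ < ρ₀ := by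
        calc ‖s - z‖ = ‖(s - x) + (x - z)‖ := by congr 1; abel
          _ ≤ ‖s - x‖ + ‖x - z‖ := norm_add_le _ _
          _ < ρ₀ := by linarith
      have h2 := hloc s hs h1
      have h3 := F.meet h2 hsj
      have h4 := hdis j hj i₀ hi₀I
      linarith)
    exact ⟨j, hj, by linarith, hdis j hj⟩
  -- points outside A near z
  have hout : ∀ η > 0, ∃ x, x ∉ A ∧ ‖x - z‖ < η := by
    intro η hη
    by_contra hcon
    push Not at hcon
    refine hzS (η / 2) (half_pos hη) ?_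
    have : {i | ‖z - F.c i‖ ≤ F.r i + η / 2} ⊆
        ⋃ i ∈ I, {j | ‖F.c i - F.c j‖ ≤ F.r i + F.r j} := by
      intro j hj
      obtain ⟨y, hy1, hy2⟩ := near_point (F.rpos j).le (half_pos hη).le hj
      have hyA : y ∈ A := by
        by_contra h
        have := hcon y h
        linarith
      obtain ⟨i, hi, hyi⟩ := mem_iUnion₂.1 hyA
      rw [mem_closedBall, dist_eq_norm] at hyi
      exact mem_biUnion hi (F.meet hyi hy1)
    exact (hIfin.biUnion (fun i _ => F.star i)).subset this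
  -- constants
  set u : Y := (1 / r₁) • (z - c₁) with hu
  have hun : ‖u‖ = 1 := by
    rw [hu, norm_smul, Real.norm_of_nonneg (by positivity), hz1]; field_simp
  have hu0 : u ≠ 0 := by
    intro h; rw [h, norm_zero] at hun; exact zero_ne_one hun
  obtain ⟨δ₁, hδ₁, hsmul⟩ := smulyan (hsm u hu0) (1 / 4) (by norm_num)
  rw [hun] at hsmul
  set f := fderiv ℝ (fun y : Y => ‖y‖) u with hf
  set s := min (r₁ / 2) (κ / 4) with hs
  have hs0 : 0 < s := lt_min (by linarith) (by linarith)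
  have hs1 : s ≤ r₁ / 2 := min_le_left _ _
  have hs2 : s ≤ κ / 4 := min_le_right _ _
  set η := min (κ / 4) (min (δ₁ * s / 2) (δ₁ * r₁ / 4)) with hη
  have hη0 : 0 < η := lt_min (by linarith) (lt_min (by positivity) (by positivity))
  have hη1 : η ≤ κ / 4 := min_le_left _ _
  have hη2 : η ≤ δ₁ * s / 2 := (min_le_right _ _).trans (min_le_left _ _)
  have hη3 : η ≤ δ₁ * r₁ / 4 := (min_le_right _ _).trans (min_le_right _ _)
  have hηδ : η / s + 2 * η / r₁ ≤ δ₁ := by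
    have h1 : η / s ≤ δ₁ / 2 := by
      rw [div_le_iff₀ hs0]; linarith
    have h2 : 2 * η / r₁ ≤ δ₁ / 2 := by
      rw [div_le_iff₀ hr₁pos]; linarith
    linarith
  obtain ⟨x, hxA, hxz⟩ := hout η hη0
  obtain ⟨j, hxj, hjκ, hjdis⟩ := hG x (by linarith) hxA
  obtain ⟨c', hc'x, hc'j⟩ := subball hκ hjκ hxj
  set w : Y := (1 / κ) • (c' - x) with hw
  have hwn : ‖w‖ ≤ 1 := by
    rw [hw, norm_smul, Real.norm_of_nonneg (by positivity), norm_sub_rev]
    calc 1 / κ * ‖x - c'‖ ≤ 1 / κ * κ := by gcongr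
      _ = 1 := by field_simp
  set ζ := z + s • (w - u) with hζ
  set ξ := x + s • (w - u) with hξ
  have hru : z - c₁ = r₁ • u := by
    rw [hu, smul_smul]; field_simp; simp
  have hκw : c' - x = κ • w := by
    rw [hw, smul_smul]; field_simp; simp
  have n1 : ‖ζ - c₁‖ ≤ r₁ := by
    have e1 : ζ - c₁ = (r₁ - s) • u + s • w := by
      have : ζ - c₁ = (z - c₁) + s • (w - u) := by rw [hζ]; abel
      rw [this, hru, sub_smul, smul_sub]; abel
    rw [e1]
    have := comb_le (by linarith : (0:ℝ) ≤ r₁ - s) hs0.le hun.le hwn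
    linarith
  have n2 : ‖c' - ξ‖ ≤ κ := by
    have e2 : c' - ξ = (κ - s) • w + s • u := by
      have : c' - ξ = (c' - x) - s • (w - u) := by rw [hξ]; abel
      rw [this, hκw, sub_smul, smul_sub]; abel
    rw [e2]
    have := comb_le (by linarith : (0:ℝ) ≤ κ - s) hs0.le hwn hun.le
    linarith
  have hξj : ‖ξ - F.c j‖ ≤ F.r j := by
    calc ‖ξ - F.c j‖ = ‖(c' - F.c j) - (c' - ξ)‖ := by congr 1; abel
      _ ≤ ‖c' - F.c j‖ + ‖c' - ξ‖ := norm_sub_le _ _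
      _ ≤ _ := by linarith
  have hξA : ξ ∉ A := by
    intro h
    obtain ⟨i, hi, hξi⟩ := mem_iUnion₂.1 h
    rw [mem_closedBall, dist_eq_norm] at hξi
    have h1 := F.meet hξi hξj
    have h2 := hjdis i hi
    linarith
  have hζA : ζ ∈ A := memA hi₀I n1
  have hζξ : ‖ξ - ζ‖ < η := by
    have : ξ - ζ = x - z := by rw [hξ, hζ]; abel
    rw [this]; exact hxz
  -- last point in A
  set K : Set ℝ := Icc 0 1 ∩ {t | ζ + t • (ξ - ζ) ∈ A} with hK
  have hKcomp : IsCompact K := by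
    refine isCompact_Icc.inter_right (hAclosed.preimage ?_)
    fun_prop
  have hKne : K.Nonempty := by
    refine ⟨0, ⟨le_rfl, zero_le_one⟩, ?_⟩
    simpa using hζA
  obtain ⟨t, ⟨⟨ht0, ht1⟩, htA⟩, htmax⟩ := hKcomp.exists_isGreatest hKne
  have ht1' : t < 1 := by
    refine lt_of_le_of_ne ht1 ?_
    rintro rfl
    apply hξA
    have : ζ + (1:ℝ) • (ξ - ζ) ∈ A := htA
    rwa [one_smul, add_sub_cancel] at this
  obtain ⟨i₁, hi₁, hai₁⟩ := mem_iUnion₂.1 htA
  rw [mem_closedBall, dist_eq_norm] at hai₁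
  set a := ζ + t • (ξ - ζ) with ha
  obtain ⟨δ₂, hδ₂, hgap₂⟩ := F.gap (x := a)
    (T := {j' | ‖F.c j - F.c j'‖ ≤ F.r j + F.r j'} ∩ {j' | F.r j' < ‖a - F.c j'‖})
    ((F.star j).subset inter_subset_left) (fun j' hj' => hj'.2)
  set t' := t + min (δ₂ / η) (1 - t) with ht'
  have m1 := min_le_left (δ₂ / η) (1 - t)
  have m2 := min_le_right (δ₂ / η) (1 - t)
  have m3 : 0 < min (δ₂ / η) (1 - t) := lt_min (by positivity) (by linarith)
  have ht'0 : 0 ≤ t' := by linarith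
  have ht'1 : t' ≤ 1 := by linarith
  set x' := ζ + t' • (ξ - ζ) with hx'
  have hx'A : x' ∉ A := by
    intro hmem
    have : t' ≤ t := htmax ⟨⟨ht'0, ht'1⟩, hmem⟩
    linarith
  have hx'a : ‖x' - a‖ ≤ δ₂ := by
    have : x' - a = (t' - t) • (ξ - ζ) := by rw [hx', ha, sub_smul]; abel
    rw [this, norm_smul, Real.norm_of_nonneg (by linarith)]
    calc (t' - t) * ‖ξ - ζ‖ ≤ (δ₂ / η) * η := by
          have : t' - t ≤ δ₂ / η := by linarith
          gcongr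
      _ = δ₂ := by field_simp
  have hx'ζ : ‖x' - ζ‖ ≤ η := by
    have : x' - ζ = t' • (ξ - ζ) := by rw [hx']; abel
    rw [this, norm_smul, Real.norm_of_nonneg ht'0]
    calc t' * ‖ξ - ζ‖ ≤ 1 * η := by gcongr
      _ = η := one_mul _
  have hx'ξ : ‖x' - ξ‖ ≤ η := by
    have : x' - ξ = (1 - t') • (ζ - ξ) := by
      rw [hx', sub_smul, one_smul, ← neg_sub ζ ξ, smul_neg]; abel
    rw [this, norm_smul, Real.norm_of_nonneg (by linarith), norm_sub_rev]
    calc (1 - t') * ‖ξ - ζ‖ ≤ 1 * η := by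
          have : 1 - t' ≤ 1 := by linarith
          gcongr
      _ = η := one_mul _
  have hζz : ‖ζ - z‖ ≤ 2 * s := by
    have : ζ - z = s • (w - u) := by rw [hζ]; abel
    rw [this, norm_smul, Real.norm_of_nonneg hs0.le]
    have : ‖w - u‖ ≤ 2 := (norm_sub_le _ _).trans (by linarith)
    nlinarith
  have hx'z : ‖x' - z‖ ≤ κ := by
    calc ‖x' - z‖ = ‖(x' - ζ) + (ζ - z)‖ := by congr 1; abel
      _ ≤ ‖x' - ζ‖ + ‖ζ - z‖ := norm_add_le _ _
      _ ≤ κ := by linarith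
  obtain ⟨k, hx'k, hkκ, hkdis⟩ := hG x' hx'z hx'A
  have hjk : F.r j + F.r k < ‖F.c j - F.c k‖ := by
    by_contra hcon
    push Not at hcon
    rcases lt_or_ge (F.r k) ‖a - F.c k‖ with h | h
    · have h1 := hgap₂ k ⟨hcon, h⟩
      have h2 : ‖a - F.c k‖ ≤ F.r k + ‖x' - a‖ := by
        calc ‖a - F.c k‖ = ‖(x' - F.c k) - (x' - a)‖ := by congr 1; abel
          _ ≤ ‖x' - F.c k‖ + ‖x' - a‖ := norm_sub_le _ _
          _ ≤ _ := by linarith
      linarith
    · have h1 := F.meet hai₁ h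
      have h2 := hkdis i₁ hi₁
      linarith
  obtain ⟨c₀, hc₀x, hc₀k⟩ := subball hκ hkκ hx'k
  have hd₁ : κ + r₁ < ‖c₀ - c₁‖ := by
    have h1 := hkdis i₀ hi₀I
    have h2 : ‖c₁ - F.c k‖ ≤ ‖c₀ - c₁‖ + ‖c₀ - F.c k‖ := by
      calc ‖c₁ - F.c k‖ = ‖(c₀ - F.c k) - (c₀ - c₁)‖ := by congr 1; abel
        _ ≤ ‖c₀ - F.c k‖ + ‖c₀ - c₁‖ := norm_sub_le _ _
        _ = _ := by ring
    linarith
  have hd₂ : 2 * κ < ‖c' - c₀‖ := by
    have h2 : ‖F.c j - F.c k‖ ≤ ‖c' - c₀‖ + ‖c₀ - F.c k‖ + ‖c' - F.c j‖ := by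
      calc ‖F.c j - F.c k‖ = ‖((c' - c₀) + (c₀ - F.c k)) - (c' - F.c j)‖ := by congr 1; abel
        _ ≤ ‖(c' - c₀) + (c₀ - F.c k)‖ + ‖c' - F.c j‖ := norm_sub_le _ _
        _ ≤ _ := by gcongr; exact norm_add_le _ _
    linarith
  exact three_ball f hr₁pos hκ hs0 hs1 (by linarith) hη1 hu hw hwn hz1 hζ hξ hx'ζ hx'ξ hc₀x
    hd₁ hd₂ (fun g hg hgu => hsmul g hg (by linarith))

end Pool.Agent.StarFinite
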