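import Mathlib
import Pool.Agent.StarFinite.Abstract

set_option autoImplicit false
set_option linter.unusedSectionVars false
set_option linter.style.haveILetI false

namespace Pool.Agent.StarFinite

open Metric Set TopologicalSpace

variable {X : Type*} [NormedAddCommGroup X] [NormedSpace ℝ X] {κ : Type*}

lemma closing_step (T : X → Set X) (hT : ∀ x, (T x).Finite) (D : Set X) (hD : D.Countable) :
    ∃ D' Q : Set X, D'.Countable ∧ Q.Countable ∧ D ⊆ D' ∧ Q ⊆ (Submodule.span ℝ D : Set X) ∧
      (Submodule.span ℝ D : Set X) ⊆ closure Q ∧ ∀ q ∈ Q, T q ⊆ D' := by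
  have hsep : IsSeparable (Submodule.span ℝ D : Set X) := hD.isSeparable.span
  obtain ⟨Q, hQ1, hQ2, hQ3⟩ := hsep.exists_countable_dense_subset
  refine ⟨D ∪ ⋃ q ∈ Q, T q, Q, ?_, hQ2, subset_union_left, hQ1, hQ3, ?_⟩
  · exact hD.union (hQ2.biUnion (fun q _ => (hT q).countable))
  · intro q hq x hx
    exact Or.inr (mem_biUnion hq hx)

/-- closing off: a separable closed subspace `W` containing a given countable set, with a countable
dense subset `Q` such that the finite sets `T q` for `q ∈ Q` are in `W`. -/
lemma closing_off (T : X → Set X) (hT : ∀ x, (T x).Finite) (D : Set X) (hD : D.Countable) :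
    ∃ (W : Submodule ℝ X) (Q : Set X), IsClosed (W : Set X) ∧ Q.Countable ∧ D ⊆ W ∧ Q ⊆ W ∧
      (W : Set X) ⊆ closure Q ∧ ∀ q ∈ Q, T q ⊆ W := by
  classical
  choose! next cq h1 h2 h3 h4 h5 h6 using closing_step T hT
  let E : ℕ → Set X := fun n => Nat.rec D (fun _ s => next s) n
  have hE0 : E 0 = D := rfl
  have hEs : ∀ n, E (n + 1) = next (E n) := fun n => rfl
  have hEc : ∀ n, (E n).Countable := by
    intro n
    induction n with
    | zero => exact hD
    | succ n ih => rw [hEs]; exact h1 _ ih
  have hEmono : Monotone E := by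
    apply monotone_nat_of_le_succ
    intro n
    rw [hEs]
    exact h3 _ (hEc n)
  set V : Submodule ℝ X := Submodule.span ℝ (⋃ n, E n) with hV
  have hEV : ∀ n, (Submodule.span ℝ (E n) : Set X) ⊆ V := fun n =>
    Submodule.span_mono (subset_iUnion E n)
  have hVmem : ∀ x ∈ V, ∃ n, x ∈ Submodule.span ℝ (E n) := by
    intro x hx
    rw [hV, Submodule.span_iUnion] at hx
    rwa [Submodule.mem_iSup_of_directed] at hx
    exact (Monotone.directed_le (fun a b hab => Submodule.span_mono (hEmono hab)))
  refine ⟨V.topologicalClosure, ⋃ n, cq (E n), V.isClosed_topologicalClosure, ?_, ?_, ?_, ?_, ?_⟩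
  · exact countable_iUnion (fun n => h2 _ (hEc n))
  · intro x hx
    exact V.le_topologicalClosure (hEV 0 (Submodule.subset_span (by rw [hE0]; exact hx)))
  · intro x hx
    obtain ⟨n, hn⟩ := mem_iUnion.1 hx
    exact V.le_topologicalClosure (hEV n (h4 _ (hEc n) hn))
  · intro x hx
    rw [Submodule.topologicalClosure_coe] at hx
    refine closure_minimal ?_ isClosed_closure hx
    intro y hy
    obtain ⟨n, hn⟩ := hVmem y hy
    exact closure_mono (subset_iUnion (fun n => cq (E n)) n) (h5 _ (hEc n) hn)
  · intro q hq x hx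
    obtain ⟨n, hn⟩ := mem_iUnion.1 hq
    have : x ∈ E (n + 1) := by
      rw [hEs]; exact h6 _ (hEc n) q hn hx
    exact V.le_topologicalClosure (hEV (n + 1) (Submodule.subset_span this))

/-- No star-finite ball covering of an infinite-dimensional Fréchet smooth Banach space
(indexed version). -/
theorem no_covering [CompleteSpace X] (hinf : ¬ FiniteDimensional ℝ X)
    (hsm : ∀ x : X, x ≠ 0 → DifferentiableAt ℝ (fun y : X => ‖y‖) x)
    (c : κ → X) (r : κ → ℝ) (hr : ∀ i, 0 < r i)
    (hstar : ∀ i, {j | ‖c i - c j‖ ≤ r i + r j}.Finite)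
    (hcov : ∀ x, ∃ i, ‖x - c i‖ ≤ r i) : False := by
  classical
  have hmeet : ∀ {x : X} {i j : κ}, ‖x - c i‖ ≤ r i → ‖x - c j‖ ≤ r j →
      ‖c i - c j‖ ≤ r i + r j := by
    intro x i j hi hj
    calc ‖c i - c j‖ = ‖(x - c j) - (x - c i)‖ := by congr 1; abel
      _ ≤ ‖x - c j‖ + ‖x - c i‖ := norm_sub_le _ _
      _ ≤ _ := by linarith
  have hpf : ∀ x, {i | ‖x - c i‖ ≤ r i}.Finite := by
    intro x
    obtain ⟨i, hi⟩ := hcov x
    exact (hstar i).subset (fun j hj => hmeet hi hj)
  let T : X → Set X := fun x => c '' {i | ‖x - c i‖ ≤ r i}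
  have hT : ∀ x, (T x).Finite := fun x => (hpf x).image c
  -- infinite independent sequence
  let b := Module.Basis.ofVectorSpace ℝ X
  have hbinf : Infinite (Module.Basis.ofVectorSpaceIndex ℝ X) := by
    by_contra hcon
    rw [not_infinite_iff_finite] at hcon
    exact hinf (Module.Finite.of_basis b)
  let emb := Infinite.natEmbedding (Module.Basis.ofVectorSpaceIndex ℝ X)
  have hvli : LinearIndependent ℝ (fun n => b (emb n)) :=
    b.linearIndependent.comp emb emb.injective
  obtain ⟨W, Q, hWc, hQc, hDW, hQW, hWQ, hTQ⟩ :=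
    closing_off T hT (range (fun n => b (emb n))) (countable_range _)
  haveI : CompleteSpace W := hWc.completeSpace_coe
  have hWinf : ¬ FiniteDimensional ℝ W := by
    intro hfd
    have hv' : LinearIndependent ℝ (fun n => (⟨b (emb n), hDW ⟨n, rfl⟩⟩ : W)) := by
      apply LinearIndependent.of_comp W.subtype
      exact hvli
    have := hv'.finite_of_isNoetherian
    exact not_finite ℕ
  have hWsm : ∀ x : W, x ≠ 0 → DifferentiableAt ℝ (fun y : W => ‖y‖) x := by
    intro x hx
    have h1 : DifferentiableAt ℝ (fun y : X => ‖y‖) (W.subtypeL x) := hsm _ (by simpa using hx)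
    exact h1.comp x W.subtypeL.differentiableAt
  let ι := {i : κ // ∃ q ∈ Q, ‖q - c i‖ ≤ r i}
  have hιc : Countable ι := by
    have : {i : κ | ∃ q ∈ Q, ‖q - c i‖ ≤ r i} = ⋃ q ∈ Q, {i | ‖q - c i‖ ≤ r i} := by
      ext i; simp
    have h2 : {i : κ | ∃ q ∈ Q, ‖q - c i‖ ≤ r i}.Countable := by
      rw [this]; exact hQc.biUnion (fun q _ => (hpf q).countable)
    exact h2.to_subtype
  have hcW : ∀ i : ι, c i.1 ∈ W := by
    rintro ⟨i, q, hq, hi⟩
    exact hTQ q hq ⟨i, hi, rfl⟩
  let F : StarFam W ι :=
    { c := fun i => ⟨c i.1, hcW i⟩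
      r := fun i => r i.1
      rpos := fun i => hr i.1
      star := by
        intro i
        exact (hstar i.1).preimage Subtype.val_injective.injOn
      dense := by
        intro x ε hε
        obtain ⟨q, hq, hqx⟩ := Metric.mem_closure_iff.1 (hWQ x.2) ε hε
        obtain ⟨i, hi⟩ := hcov q
        refine ⟨⟨i, q, hq, hi⟩, ⟨q, hQW hq⟩, ?_, hi⟩
        rw [dist_eq_norm, norm_sub_rev] at hqx
        exact hqx
      tiny := by
        intro y hy
        have hy' : ∀ i : ι, r i.1 < ‖(y : X) - c i.1‖ := hy
        obtain ⟨k, hk⟩ := hcov (y : X)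
        have hkQ : ∀ q ∈ Q, r k < ‖q - c k‖ := by
          intro q hq
          by_contra hcon
          push Not at hcon
          have := hy' ⟨k, q, hq, hcon⟩
          simp only at this
          linarith
        have hkW : ∀ v ∈ W, r k ≤ ‖v - c k‖ := by
          intro v hv
          have hcl : IsClosed {v : X | r k ≤ ‖v - c k‖} :=
            isClosed_le continuous_const (by fun_prop)
          exact closure_minimal (fun q hq => (hkQ q hq).le) hcl (hWQ hv)
        have hyk : ‖(y : X) - c k‖ = r k := le_antisymm hk (hkW _ y.2)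
        have hy0 : (y : X) - c k ≠ 0 := by
          intro h; rw [h, norm_zero] at hyk; exact (hr k).ne hyk
        have hd := hsm _ hy0
        set g := fderiv ℝ (fun y : X => ‖y‖) ((y : X) - c k) with hg
        -- the derivative kills W
        have hgW : ∀ v ∈ W, g v = 0 := by
          intro v hv
          have h1 : HasDerivAt (fun t : ℝ => ‖((y : X) - c k) + t • v‖) (g v) 0 := by
            have h2 : HasFDerivAt (fun y : X => ‖y‖) g (((y : X) - c k) + (0 : ℝ) • v) := by
              rw [zero_smul, add_zero]; exact hd.hasFDerivAt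
            have h3 : HasDerivAt (fun t : ℝ => ((y : X) - c k) + t • v) v 0 := by
              simpa using ((hasDerivAt_id (0 : ℝ)).smul_const v).const_add ((y : X) - c k)
            exact h2.comp_hasDerivAt (0 : ℝ) h3
          have h4 : IsLocalMin (fun t : ℝ => ‖((y : X) - c k) + t • v‖) 0 := by
            apply Filter.Eventually.of_forall
            intro t
            simp only [zero_smul, add_zero]
            rw [hyk]
            have : ((y : X) - c k) + t • v = ((y : X) + t • v) - c k := by abel
            rw [this]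
            exact hkW _ (W.add_mem y.2 (W.smul_mem t hv))
          exact h4.hasDerivAt_eq_zero h1
        obtain ⟨δ₁, hδ₁, hsmul⟩ := smulyan hd (1 / 2) (by norm_num)
        rw [hyk] at hsmul
        -- finitely many members meet the ball k
        have hTfin : {i : ι | ‖c k - c i.1‖ ≤ r k + r i.1}.Finite :=
          (hstar k).preimage Subtype.val_injective.injOn
        have hgap : ∃ δ > 0, ∀ i ∈ {i : ι | ‖c k - c i.1‖ ≤ r k + r i.1},
            r i.1 + δ < ‖(y : X) - c i.1‖ := by
          have hgen : ∀ s : Set ι, s.Finite → ∃ δ > 0, ∀ i ∈ s, r i.1 + δ < ‖(y : X) - c i.1‖ := by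
            intro s hs
            induction s, hs using Set.Finite.induction_on with
            | empty => exact ⟨1, one_pos, by simp⟩
            | @insert a s ha hs ih =>
              obtain ⟨δ, hδ, h⟩ := ih
              have h1 := hy' a
              refine ⟨min δ ((‖(y : X) - c a.1‖ - r a.1) / 2), lt_min hδ (by linarith), ?_⟩
              intro i hi
              rcases mem_insert_iff.1 hi with rfl | hi
              · have := min_le_right δ ((‖(y : X) - c i.1‖ - r i.1) / 2)
                linarith
              · have := min_le_left δ ((‖(y : X) - c a.1‖ - r a.1) / 2)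
                have := h i hi
                linarith
          exact hgen _ hTfin
        obtain ⟨δ₂, hδ₂, hgap⟩ := hgap
        refine ⟨min δ₁ δ₂, lt_min hδ₁ hδ₂, ?_⟩
        intro i hi
        have hi' : ‖(y : X) - c i.1‖ - r i.1 < min δ₁ δ₂ := hi
        have m1 := min_le_left δ₁ δ₂
        have m2 := min_le_right δ₁ δ₂
        have hdis : r k + r i.1 < ‖c i.1 - c k‖ := by
          by_contra hcon
          push Not at hcon
          rw [norm_sub_rev] at hcon
          have := hgap i hcon
          linarith
        obtain ⟨h, hh, hhv⟩ := exists_norming (c i.1 - c k)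
        have a1 : h (c i.1 - c k) = h (c i.1 - y) + h ((y : X) - c k) := by
          rw [← map_add]; congr 1; abel
        have a2 : h (c i.1 - y) ≤ ‖(y : X) - c i.1‖ := by
          rw [norm_sub_rev]; exact apply_le_norm hh _
        have a3 : h ((y : X) - c k) ≤ r k := (apply_le_norm hh _).trans hyk.le
        have a4 : r k - δ₁ ≤ h ((y : X) - c k) := by linarith
        have a5 := hsmul h hh a4
        have a6 : r i.1 < h (c i.1 - y) := by linarith
        have a7 : g (c i.1 - y) = 0 := hgW _ (W.sub_mem (hcW i) y.2)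
        have a8 : h (c i.1 - y) ≤ 1 / 2 * ‖(y : X) - c i.1‖ := by
          calc h (c i.1 - y) = (h - g) (c i.1 - y) := by rw [sub_apply, a7, sub_zero]
            _ ≤ ‖(h - g) (c i.1 - y)‖ := Real.le_norm_self _
            _ ≤ ‖h - g‖ * ‖c i.1 - y‖ := (h - g).le_opNorm _
            _ ≤ 1 / 2 * ‖(y : X) - c i.1‖ := by
              rw [norm_sub_rev (c i.1) (y : X)]; gcongr
        show r i.1 ≤ ‖(y : X) - c i.1‖ - r i.1
        linarith }
  exact F.elim hWinf hWsm

end Pool.Agent.StarFinite
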